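import Pool.Agent.H184Z.FPure.Main

set_option autoImplicit false

namespace Pool.Agent.Results.MP_234613_al.ACounterexample

open Pool.Agent.H184Z.FPure

/-- For every prime `p` there is a one-dimensional Noetherian local domain of characteristic `p`
that is `F`-pure and has a nonzero `p⁻¹`-linear map but is not Frobenius split. -/
theorem result (p : ℕ) [Fact p.Prime] : ∃ (R : Type) (_ : CommRing R) (_ : CharP R p),
    IsNoetherianRing R ∧ IsDomain R ∧ IsLocalRing R ∧ ringKrullDim R = 1 ∧ IsFPure p R ∧
      (∃ φ : FStar p R →ₗ[R] R, φ ≠ 0) ∧ ¬ IsFSplit p R :=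
  main p

end Pool.Agent.Results.MP_234613_al.ACounterexample
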